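import Mathlib
import Pool.Agent.Q305.Aron

/-!
# MP_8fd369_lc: a dense Aronszajn line on which Player II wins for all payoff sets

The line consists of the finite sequences of elements of an Aronszajn line `C` which has no least
element, ordered lexicographically. Player II answers `a` by `a ++ [c₀]` for a fixed `c₀ : C`.
-/

set_option autoImplicit false

namespace Pool.Agent.Results.MP_8fd369_lc.AronszajnGame

open Set Pool.Agent.Q305.Aron

/-- Player I's moves `a 0, …, a n` are legal against Player II's moves `b 0, …, b (n - 1)`. -/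
def LegalI {X : Type} [LinearOrder X] (a b : ℕ → X) (n : ℕ) : Prop :=
  ∀ m < n, a m < a (m + 1) ∧ a (m + 1) < b m

/-- Player II has a winning strategy in the game `BG(X,S)`: there is a rule `σ` giving Player II's
move `b n` from the previous moves `a 0, …, a n` and `b 0, …, b (n - 1)`, such that in every play
in which Player II uses the rule: as long as the moves of Player I are legal, the moves of Player II
are legal, and if all moves of Player I are legal, then no `x ∈ S` satisfies `a n < x < b n` for
all `n`. -/
def PlayerIIWins (X : Type) [LinearOrder X] (S : Set X) : Prop :=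
  ∃ σ : (n : ℕ) → (Fin (n + 1) → X) → (Fin n → X) → X, ∀ a b : ℕ → X,
    (∀ n, b n = σ n (fun i => a i) (fun i => b i)) →
      (∀ n, LegalI a b n → a n < b n ∧ ∀ m, n = m + 1 → b n < b m) ∧
      ((∀ n, LegalI a b n) → ¬ ∃ x ∈ S, ∀ n, a n < x ∧ x < b n)

/-! ### the reverse of a line -/

theorem strong_dual {C : Type} [LinearOrder C] (h : Strong C) : Strong Cᵒᵈ := by
  obtain ⟨h1, h2, h3, h4⟩ := h
  have key : ∀ {R R' : Type} [Preorder R] [Preorder R'] (f : R → R') (_ : StrictAnti f)
      (_ : ∀ T : Set C, ∀ r : T → R', StrictMono r → T.Countable)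
      (T : Set Cᵒᵈ) (r : T → R), StrictMono r → T.Countable := by
    intro R R' _ _ f hf h T r hr
    have h5 : (OrderDual.toDual ⁻¹' T : Set C).Countable := by
      refine h _ (fun c => f (r ⟨OrderDual.toDual c.1, c.2⟩)) fun c d hcd => hf (hr ?_)
      exact OrderDual.toDual_lt_toDual.2 hcd
    have h6 := h5.image (OrderDual.toDual : C → Cᵒᵈ)
    rwa [image_preimage_eq _ OrderDual.toDual.surjective] at h6
  refine ⟨fun h => h1 ?_, fun T r hr => ?_, fun T r hr => ?_, fun T r hr => ?_⟩
  · have h6 := h.preimage OrderDual.toDual.injective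
    rwa [preimage_univ] at h6
  · exact key (R := Om) (R' := Omᵒᵈ) OrderDual.toDual (fun a b hab => OrderDual.toDual_lt_toDual.2 hab) h3 T r hr
  · exact key (R := Omᵒᵈ) (R' := Om) OrderDual.ofDual (fun a b hab => OrderDual.ofDual_lt_ofDual.2 hab) h2 T r hr
  · exact key (R := ℝ) (R' := ℝ) (fun x => -x) (fun a b hab => neg_lt_neg hab) h4 T r hr

/-! ### finite sequences -/

section
variable {C : Type} [LinearOrder C]

theorem lt_append (x : List C) (c : C) (t : List C) : x < x ++ c :: t := by
  induction x with
  | nil => exact List.Lex.nil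
  | cons a x ih => exact List.Lex.cons ih

theorem exists_append_lt [NoMinOrder C] {x y : List C} (h : x < y) : ∃ c, x ++ [c] < y := by
  induction x generalizing y with
  | nil =>
    cases y with
    | nil => exact absurd h (lt_irrefl _)
    | cons b l =>
      obtain ⟨c, hc⟩ := exists_lt b
      exact ⟨c, List.Lex.rel hc⟩
  | cons a x ih =>
    cases y with
    | nil => exact absurd h (List.not_lt_nil _)
    | cons b l =>
      rcases List.cons_lt_cons_iff.1 h with h1 | ⟨rfl, h1⟩
      · exact ⟨a, List.Lex.rel h1⟩
      · obtain ⟨c, hc⟩ := ih h1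
        exact ⟨c, List.Lex.cons hc⟩

/-- between `x` and `x ++ [c]` there are only proper extensions of `x` -/
theorem between {x y : List C} {c : C} (h : x < y) (h' : y < x ++ [c]) :
    ∃ d t, d < c ∧ y = x ++ d :: t := by
  induction x generalizing y with
  | nil =>
    cases y with
    | nil => exact absurd h (lt_irrefl _)
    | cons d t =>
      rcases List.cons_lt_cons_iff.1 h' with h1 | ⟨rfl, h1⟩
      · exact ⟨d, t, h1, rfl⟩
      · exact absurd h1 (List.not_lt_nil _)
  | cons a x ih =>
    cases y with
    | nil => exact absurd h (List.not_lt_nil _)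
    | cons b y =>
      rcases List.cons_lt_cons_iff.1 h with h1 | ⟨rfl, h1⟩
      · rcases List.cons_lt_cons_iff.1 h' with h2 | ⟨rfl, h2⟩
        · exact absurd h1 (lt_asymm h2)
        · exact absurd h1 (lt_irrefl _)
      · rcases List.cons_lt_cons_iff.1 h' with h2 | ⟨-, h2⟩
        · exact absurd h2 (lt_irrefl _)
        · obtain ⟨d, t, hd, rfl⟩ := ih h1 h2
          exact ⟨d, t, hd, rfl⟩

theorem append_lt (x t : List C) {d c : C} (h : d < c) : x ++ d :: t < x ++ [c] := by
  induction x with
  | nil => exact List.Lex.rel h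
  | cons a x ih => exact List.Lex.cons ih

theorem playerIIWins [Nonempty C] (S : Set (List C)) : PlayerIIWins (List C) S := by
  obtain ⟨c⟩ := ‹Nonempty C›
  refine ⟨fun n a _ => a (Fin.last n) ++ [c], fun a b hb => ?_⟩
  have hb' : ∀ n, b n = a n ++ [c] := fun n => by
    rw [hb n]
    simp
  refine ⟨fun n hn => ⟨?_, ?_⟩, fun hall => ?_⟩
  · rw [hb']
    exact lt_append _ _ _
  · rintro m rfl
    obtain ⟨h1, h2⟩ := hn m (Nat.lt_succ_self m)
    rw [hb' m] at h2
    obtain ⟨d, t, hd, e⟩ := between h1 h2
    rw [hb' m, hb' (m + 1), e, List.append_assoc]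
    exact append_lt _ _ hd
  · rintro ⟨x, -, hx⟩
    have h1 : ∀ n, n ≤ (a n).length := by
      intro n
      induction n with
      | zero => exact Nat.zero_le _
      | succ n ih =>
        obtain ⟨h1, h2⟩ := hall (n + 1) n (Nat.lt_succ_self n)
        rw [hb' n] at h2
        obtain ⟨d, t, hd, e⟩ := between h1 h2
        rw [e, List.length_append, List.length_cons]
        omega
    obtain ⟨h2, h3⟩ := hx x.length
    rw [hb'] at h3
    obtain ⟨d, t, -, e⟩ := between h2 h3
    have h4 := congrArg List.length e
    rw [List.length_append, List.length_cons] at h4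
    have := h1 x.length
    omega

end

/-- There is a dense Aronszajn line `A` such that Player II has a winning strategy in `BG(A,S)` for
every subset `S` of `A`. -/
theorem result : ∃ (A : Type) (_ : LinearOrder A), (∀ x y : A, x < y → ∃ z, x < z ∧ z < y) ∧
    IsAronszajnLine A ∧ ∀ S : Set A, PlayerIIWins A S := by
  obtain ⟨X, hX, hS⟩ := exists_line
  have hne : Nonempty X := by
    by_contra h
    rw [not_nonempty_iff] at h
    exact hS.1 (Set.to_countable _)
  let C : Type := (List X)ᵒᵈ
  let iC : LinearOrder C := inferInstanceAs (LinearOrder (List X)ᵒᵈ)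
  have hC : Strong C := strong_dual (strong_list hS)
  have hneC : Nonempty C := ⟨OrderDual.toDual []⟩
  have hmin : NoMinOrder C := by
    refine ⟨fun c => ?_⟩
    obtain ⟨x⟩ := hne
    exact ⟨OrderDual.toDual (OrderDual.ofDual c ++ [x]), lt_append (OrderDual.ofDual c) x []⟩
  refine ⟨List C, inferInstance, fun x y hxy => ?_, (strong_list hC).isAronszajnLine,
    fun S => playerIIWins S⟩
  obtain ⟨c, hc⟩ := exists_append_lt hxy
  exact ⟨x ++ [c], lt_append x c [], hc⟩

end Pool.Agent.Results.MP_8fd369_lc.AronszajnGame
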